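import Pool.Agent.MP_66cee2_co.D.Fam

/-
Countably many flat fields that are mutually orthogonal on unit pairs give a dense family of open
sets whose labels are taken from a prescribed class.
-/

namespace Pool.Agent.MP_66cee2_co.H54

open MeasureTheory Set Filter Metric Topology Matrix Pool.Agent.MP_66cee2_co.X
open Pool.Agent.MP_66cee2_co.D Pool.Agent.MP_66cee2_co.D.C Pool.Agent.MP_66cee2_co.D.C.CFam
open scoped ENNReal RealInnerProductSpace

variable {d n : ℕ}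

/-- the family from countably many pieces, with labels in a prescribed class. -/
theorem fam_pr (hK : SKit d) (h2 : SOpen d) (Pr : (Ix n → ℝ) → Prop) {I : Type} [Countable I]
    (Z : I → Set (E d)) (W : I → Submodule ℝ (Ix n → ℝ)) (hZ : ∀ i, MeasurableSet (Z i))
    (ha : ∀ᵐ y, ∃ v, Pr v ∧ 0 < lz v v ∧ Sg Z W y ≤ perp v)
    (hb : ∀ᵐ z, ∃ i, z ∈ Z i ∧ ∀ u, Sg Z W z ≤ perp u → u ∈ W i) :
    ∃ O : (Ix n → ℝ) → Set (E d), Fam O ∧ ∀ v, (O v).Nonempty → Pr v := by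
  refine ⟨fun v => {y | (Pr v ∧ 0 < lz v v) ∧
    ∃ r, 0 < r ∧ ∀ᵐ y', y' ∈ ball y r → Sg Z W y' ≤ perp v},
    ⟨fun v => ?_, fun v hv => ?_, ?_, ?_⟩, fun v hv => ?_⟩
  · rw [Metric.isOpen_iff]
    rintro y ⟨hv, r, hr, h⟩
    refine ⟨r / 2, half_pos hr, fun y₁ hy₁ =>
      ⟨hv, r / 2, half_pos hr, h.mono fun y' hy' hb => hy' ?_⟩⟩
    rw [mem_ball] at hy₁ hb ⊢
    linarith [dist_triangle y' y₁ y]
  · obtain ⟨y, hy, -⟩ := hv
    exact hy.2
  · rw [Metric.dense_iff]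
    intro x ρ hρ
    obtain ⟨y, hy, ⟨v, v1, v2, v3⟩, r, hr, h⟩ := h2 I (Ix n) Z W _ x ρ hZ ha hρ
    exact ⟨y, hy, mem_iUnion.2 ⟨v, ⟨v1, v2⟩, r, hr, h.mono fun y' h1 h3 => (h1 h3).trans v3⟩⟩
  · rintro v v' y z ⟨-, r, hr, h⟩ ⟨-, r', hr', h'⟩ hyz
    have hε : 0 < min (r / 2) r' := lt_min (half_pos hr) hr'
    obtain ⟨i, hi, hpos⟩ : ∃ i, v' ∈ W i ∧ volume (Z i ∩ ball z (min (r / 2) r')) ≠ 0 := by
      by_contra hn
      push Not at hn
      have h3 : ∀ᵐ z', ∀ i, v' ∈ W i → z' ∉ Z i ∩ ball z (min (r / 2) r') := by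
        refine ae_all_iff.2 fun i => ?_
        by_cases hi : v' ∈ W i
        · exact (measure_eq_zero_iff_ae_notMem.1 (hn i hi)).mono fun z' h _ => h
        · exact Eventually.of_forall fun z' h => absurd h hi
      refine (measure_ball_pos volume z hε).ne' (measure_eq_zero_iff_ae_notMem.2 ?_)
      filter_upwards [h3, hb, h'] with z' h4 ⟨i, h5, h6⟩ h7 h8
      exact h4 i (h6 _ (h7 (ball_subset_ball (min_le_right _ _) h8))) ⟨h5, h8⟩
    have h3 : volume (ball y r ∩ Nb (Z i)) ≠ 0 := fun h0 => hpos (measure_mono_null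
      (inter_subset_inter_right _ ((ball_subset_ball (min_le_left _ _)).trans (ball_nb hr hyz)))
      (hK.nb_swap _ _ measurableSet_ball (hZ i) h0))
    obtain ⟨y', hy', h4⟩ := Measure.exists_mem_of_measure_ne_zero_of_ae h3 (ae_restrict_of_ae h)
    have h5 := mem_perp.1 (h4 hy'.1 (le_Sg hy'.2 hi))
    rwa [lz_comm] at h5
  · obtain ⟨y, hy, -⟩ := hv
    exact hy.1

/-- the dual rows of one flat field take countably many values. -/
theorem rows_of (h1 : SCnt d) {V : E d → Ix n → ℝ} (hV : Measurable V)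
    (hf : ∀ᵐ x : E d, ∀ K : ℕ, ∃ C : ℝ, Small fun τ => {η | C * τ ^ K < ‖V (x + η) - V x‖}) :
    ∃ ξ : E d → Ix n → Ix n → ℝ, Measurable ξ ∧ (∀ᵐ x : E d, 0 < volume {y | ξ y = ξ x}) ∧
      ∀ (x : E d) (u : Ix n → ℝ), u ∈ Submodule.span ℝ (range (ξ x)) ↔
        ∀ᵐ ω ∂sig d, lz u (V (x + ω)) = 0 := by
  classical
  have mc := meas_c hV
  obtain ⟨J, ξ, mJ, mξ, nrm, orth, uniq⟩ :=
    sRows d (Ix n) Unit (fun x _ => Jv (V x)) fun _ a => mc a
  have hD : ∀ j, Dual (fun x (_ : Unit) => Jv (V x)) J fun y => ξ y j := fun j =>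
    ⟨fun _ a => mc a, mJ, mξ j, fun y y' h a ha => by rw [nrm y j a ha, nrm y' j a (h ▸ ha)],
      fun k => sUp sSig d _ _ _ (mξ j) mc
        (ae_of_all _ fun y => (orth y j).mono fun ω h => h k), ae_of_all _ uniq⟩
  refine ⟨ξ, measurable_pi_iff.2 fun j => measurable_pi_iff.2 (mξ j), ?_, fun x u => ⟨?_, ?_⟩⟩
  · filter_upwards [ae_all_iff.2 fun j => h1 (Ix n) _ J _ (hD j)
      (hf.mono fun y hy => flat_c hy)] with x hx
    refine pos_of_small (x := x) (small_iff.2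
      ((smR_exists fun j => small_iff.1 (hx j)).mono' fun τ η hη => ?_))
    by_contra hn
    simp only [mem_ofPred_eq, not_exists, Far, not_or, not_lt] at hn hη
    exact hη (funext fun j => sub_eq_zero.1 (norm_le_zero_iff.1 (hn j).2))
  · intro hu
    filter_upwards [ae_all_iff.2 (orth x)] with ω hω
    refine mem_perp.1 (Submodule.span_le.2 ?_ hu)
    rintro _ ⟨j, rfl⟩
    exact hω j ()
  · intro hu
    rw [gal_span (nrm x) (orth x) (uniq x) u (hu.mono fun ω h _ => h)]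
    exact Submodule.sum_mem _ fun j _ =>
      Submodule.smul_mem _ _ (Submodule.subset_span (mem_range_self j))

/-- countably many pieces on which the intersection of the dual spaces is constant. -/
theorem pieces {L : Type} [Countable L] (ξ : L → E d → Ix n → Ix n → ℝ)
    (mξ : ∀ l, Measurable (ξ l)) (hlev : ∀ l, ∀ᵐ x : E d, 0 < volume {y | ξ l y = ξ l x}) :
    ∃ (I : Type) (_ : Countable I) (Z : I → Set (E d)) (W : I → Submodule ℝ (Ix n → ℝ)),
      (∀ i, MeasurableSet (Z i)) ∧ (∀ᵐ x, ∃ i, x ∈ Z i) ∧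
      ∀ i, ∀ x ∈ Z i, ∀ u, u ∈ W i ↔ ∀ l, u ∈ Submodule.span ℝ (range (ξ l x)) := by
  classical
  have hc : ∀ l, {p : Ix n → Ix n → ℝ | 0 < volume {y | ξ l y = p}}.Countable := fun l =>
    Measure.countable_meas_level_set_pos (mξ l)
  have hc' : ∀ l, Countable {p : Ix n → Ix n → ℝ | 0 < volume {y | ξ l y = p}} := fun l =>
    (hc l).to_subtype
  let T : Type := Σ l : L, {p : Ix n → Ix n → ℝ | 0 < volume {y | ξ l y = p}}
  let W : Finset T → Submodule ℝ (Ix n → ℝ) := fun i =>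
    ⨅ t ∈ i, Submodule.span ℝ (range t.2.1)
  refine ⟨Finset T, inferInstance, fun i => (⋂ t ∈ i, ξ t.1 ⁻¹' {t.2.1}) ∩
    ⋂ m, ξ m ⁻¹' {p | 0 < volume {y | ξ m y = p} ∧ W i ≤ Submodule.span ℝ (range p)}, W,
    fun i => ?_, ?_, ?_⟩
  · exact (i.measurableSet_biInter fun t _ => mξ t.1 (measurableSet_singleton _)).inter
      (MeasurableSet.iInter fun m => mξ m ((hc m).mono fun p hp => hp.1).measurableSet)
  · filter_upwards [ae_all_iff.2 hlev] with x hx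
    obtain ⟨_, ⟨i, hi, rfl⟩, hmin⟩ := (wellFounded_lt (α := Submodule ℝ (Ix n → ℝ))).has_min
      {U | ∃ i : Finset T, (∀ t ∈ i, ξ t.1 x = t.2.1) ∧ W i = U} ⟨_, ∅, by simp, rfl⟩
    refine ⟨i, mem_iInter₂.2 hi, mem_iInter.2 fun m => ⟨hx m, ?_⟩⟩
    have h1 : W (insert ⟨m, ξ m x, hx m⟩ i) ≤ W i :=
      le_iInf₂ fun t ht => iInf₂_le t (Finset.mem_insert_of_mem ht)
    have h2 : W (insert ⟨m, ξ m x, hx m⟩ i) = W i := by
      refine eq_of_le_of_not_lt h1 (hmin _ ⟨_, fun t ht => ?_, rfl⟩)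
      rcases Finset.mem_insert.1 ht with rfl | ht
      · rfl
      · exact hi t ht
    rw [← h2]
    exact iInf₂_le (f := fun (t : T) (_ : t ∈ insert (⟨m, ξ m x, hx m⟩ : T) i) =>
      Submodule.span ℝ (range t.2.1)) ⟨m, ξ m x, hx m⟩ (Finset.mem_insert_self _ _)
  · rintro i x ⟨h1, h2⟩ u
    refine ⟨fun hu l => (mem_iInter.1 h2 l).2 hu, fun hu => ?_⟩
    refine Submodule.mem_iInf _ |>.2 fun t => Submodule.mem_iInf _ |>.2 fun ht => ?_
    have h3 : ξ t.1 x = t.2.1 := mem_iInter₂.1 h1 t ht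
    rw [← h3]
    exact hu t.1

/-- the family with labels in a prescribed class. -/
theorem famG (hK : SKit d) (h1 : SCnt d) (h2 : SOpen d) {L : Type} [Countable L]
    (V : L → E d → Ix n → ℝ) (Pr : (Ix n → ℝ) → Prop) (hm : ∀ l, Measurable (V l))
    (hf : ∀ l, ∀ᵐ x : E d, ∀ K : ℕ, ∃ C : ℝ,
      Small fun τ => {η | C * τ ^ K < ‖V l (x + η) - V l x‖})
    (ho : ∀ l m, AePair fun x y => lz (V l x) (V m y) = 0)
    (hs : ∀ᵐ y, ∃ v, Pr v ∧ 0 < lz v v ∧ v ∈ Submodule.span ℝ (range fun l => V l y)) :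
    ∃ O : (Ix n → ℝ) → Set (E d), Fam O ∧ ∀ v, (O v).Nonempty → Pr v := by
  choose ξ mξ hlev hB using fun l => rows_of h1 (hm l) (hf l)
  obtain ⟨I, hI, Z, W, hZ, hcov, hW⟩ := pieces ξ mξ hlev
  refine fam_pr hK h2 Pr Z W hZ ?_ ?_
  · have h3 : ∀ (i : I) (m : L) (w : Ix n → ℝ), w ∈ W i →
        ∀ᵐ y, y ∉ {y | lz w (V m y) ≠ 0} ∩ Nb (Z i) := fun i m w hw => by
      refine measure_eq_zero_iff_ae_notMem.1 (hK.nb_swap _ _ (hZ i) ?_ ?_)
      · refine (measurableSet_eq_fun ?_ measurable_const).compl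
        unfold lz dotProduct
        exact Finset.measurable_sum _ fun a _ => (meas_c (hm m) a).const_mul _
      · rw [eq_empty_of_forall_notMem (s := _ ∩ _) ?_, measure_empty]
        rintro x ⟨hx, hx'⟩
        exact hx' (measure_eq_zero_iff_ae_notMem.2
          (((hB m x w).1 ((hW i x hx w).1 hw m)).mono fun ω h hn => hn h))
    have h4 : ∀ (i : I) (m : L), ∀ᵐ y, y ∈ Nb (Z i) → W i ≤ perp (V m y) := fun i m => by
      obtain ⟨s, hs⟩ : (W i).FG := IsNoetherian.noetherian _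
      have h5 : ∀ᵐ y, ∀ w ∈ s, y ∉ {y | lz w (V m y) ≠ 0} ∩ Nb (Z i) :=
        (eventually_all_finset s).2 fun w hw => h3 i m w (hs ▸ Submodule.subset_span hw)
      filter_upwards [h5] with y hy hn
      rw [← hs]
      refine Submodule.span_le.2 fun w hw => ?_
      by_contra hc
      exact hy w hw ⟨hc, hn⟩
    filter_upwards [ae_all_iff.2 fun i => ae_all_iff.2 (h4 i), hs] with y hy ⟨v, v1, v2, v3⟩
    refine ⟨v, v1, v2, iSup₂_le fun i hi w hw => mem_perp.2 ?_⟩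
    rw [lz_comm]
    refine mem_perp.1 (Submodule.span_le.2 ?_ v3)
    rintro _ ⟨m, rfl⟩
    have h5 := mem_perp.1 (hy i m hi hw)
    rw [lz_comm] at h5
    exact h5
  · have h3 : ∀ᵐ x : E d, ∃ i, x ∈ Z i ∧ ∀ m, V m x ∈ W i := by
      filter_upwards [hcov, ae_all_iff.2 fun m => ae_all_iff.2 (ho m)] with x ⟨i, hi⟩ hx
      exact ⟨i, hi, fun m => (hW i x hi _).2 fun l => (hB l x _).2 (hx m l)⟩
    filter_upwards [hcov, sSig.right d _ h3] with z ⟨i, hi⟩ hn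
    refine ⟨i, hi, fun u hu => (hW i z hi u).2 fun l => (hB l z u).2 ?_⟩
    have h4 : ∀ᵐ ω ∂sig d, ∀ j : I, z + ω ∈ Z j → z ∈ Nb (Z j) := by
      refine ae_all_iff.2 fun j => ?_
      by_cases hp : z ∈ Nb (Z j)
      · exact Eventually.of_forall fun _ _ => hp
      · exact (measure_eq_zero_iff_ae_notMem.1 (not_not.1 hp)).mono fun ω h h' => absurd h' h
    filter_upwards [hn, h4] with ω ⟨j, h5, h6⟩ h7
    rw [lz_comm]
    exact mem_perp.1 (hu (le_Sg (h7 j h5) (h6 l)))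

/-- the same with the rows discharged. -/
theorem famG3 (hd : 3 ≤ d) {L : Type} [Countable L]
    (V : L → E d → Ix n → ℝ) (Pr : (Ix n → ℝ) → Prop) (hm : ∀ l, Measurable (V l))
    (hf : ∀ l, ∀ᵐ x : E d, ∀ K : ℕ, ∃ C : ℝ,
      Small fun τ => {η | C * τ ^ K < ‖V l (x + η) - V l x‖})
    (ho : ∀ l m, AePair fun x y => lz (V l x) (V m y) = 0)
    (hs : ∀ᵐ y, ∃ v, Pr v ∧ 0 < lz v v ∧ v ∈ Submodule.span ℝ (range fun l => V l y)) :
    ∃ O : (Ix n → ℝ) → Set (E d), Fam O ∧ ∀ v, (O v).Nonempty → Pr v := by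
  have hK := sKit hd
  have hC := sCap hd
  exact famG hK (sCnt (sCntF hd) (sCntD hd (sJac hd) hC (sQuad hd (sArc hd)) (sChord hd)))
    (sOpen hd hK (sK hd (sJacL77 (by omega)) hC hK)) V Pr hm hf ho hs

/-- labels that are points of the target space. -/
theorem famL3 (hd : 3 ≤ d) {L : Type} [Countable L]
    (V : L → E d → Ix n → ℝ) (hm : ∀ l, Measurable (V l))
    (hf : ∀ l, ∀ᵐ x : E d, ∀ K : ℕ, ∃ C : ℝ,
      Small fun τ => {η | C * τ ^ K < ‖V l (x + η) - V l x‖})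
    (ho : ∀ l m, AePair fun x y => lz (V l x) (V m y) = 0)
    (hs : ∀ᵐ y, ∃ v : E n, lift v ∈ Submodule.span ℝ (range fun l => V l y)) :
    ∃ O : E n → Set (E d), (∀ v, IsOpen (O v)) ∧ Dense (⋃ v, O v) ∧
      ∀ v v' y z, y ∈ O v → z ∈ O v' → ‖y - z‖ = 1 → ‖v - v'‖ = 1 := by
  obtain ⟨O, hO, hP⟩ := famG3 hd V (fun w => ∃ v : E n, lift v = w) hm hf ho
    (hs.mono fun y ⟨v, hv⟩ => ⟨lift v, ⟨v, rfl⟩, by
      rw [lz_lift, sub_self, norm_zero]
      norm_num, hv⟩)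
  refine ⟨fun v => O (lift v), fun v => hO.opn _, hO.dense.mono fun y hy => ?_,
    fun v v' y z hy hz h => ?_⟩
  · obtain ⟨w, hw⟩ := mem_iUnion.1 hy
    obtain ⟨v, rfl⟩ := hP w ⟨y, hw⟩
    exact mem_iUnion.2 ⟨v, hw⟩
  · have h1 := hO.orth _ _ y z hy hz h
    rw [lz_lift] at h1
    have h2 : ‖v - v'‖ ^ 2 = 1 := by linarith
    exact (pow_eq_one_iff_of_nonneg (norm_nonneg _) two_ne_zero).1 h2

end Pool.Agent.MP_66cee2_co.H54
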