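import Pool.Agent.MP_66cee2_co.B.Ch
import Pool.Agent.MP_66cee2_co.B.Ga1

/-
The approximation of the Gaussian for a whole range of widths.
-/

namespace Pool.Agent.MP_66cee2_co.H54

open Set Filter Polynomial Pool.Agent.MP_66cee2_co.B

theorem ev_small : ∀ᶠ l : ℕ in atTop, 9 * (l : ℝ) ≤ Real.exp (1 / 50 * l) := by
  filter_upwards [eventually_ge_atTop 45000] with l hl
  have h1 : (45000 : ℝ) ≤ l := by exact_mod_cast hl
  have h2 := Real.quadratic_le_exp_of_nonneg (x := 1 / 50 * (l : ℝ)) (by positivity)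
  nlinarith

theorem four_pow (l : ℕ) : ((4 : ℝ) ^ l)⁻¹ ≤ Real.exp (-(69 / 50 * l)) := by
  have h1 : Real.exp (69 / 50) ≤ 4 := by
    have h := Real.log_two_gt_d9
    have h2 : Real.exp (69 / 100) ≤ 2 := by
      rw [← Real.le_log_iff_exp_le (by norm_num)]
      linarith
    have h3 : Real.exp (69 / 50) = Real.exp (69 / 100) * Real.exp (69 / 100) := by
      rw [← Real.exp_add]; norm_num
    have h4 := Real.exp_pos (69 / 100)
    nlinarith
  rw [Real.exp_neg, mul_comm, Real.exp_nat_mul]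
  exact inv_anti₀ (by positivity) (pow_le_pow_left₀ (Real.exp_pos _).le h1 l)

theorem gaussAll : ∀ᶠ l : ℕ in atTop, ∀ a ∈ Icc (37 / 50 * (l : ℝ)) (9 / 10 * l),
    ∃ r : ℝ[X], r.natDegree ≤ l ∧ ∀ k : ℝ,
      |√(a / Real.pi) * Phi (r.comp (X ^ 2)) k - Real.exp (-k ^ 2 / (4 * a))| ≤
        Real.exp (-(18 / 25 * l)) := by
  filter_upwards [ev_small, eventually_ge_atTop 2] with l hs hl a ha
  have h1 : (2 : ℝ) ≤ l := by exact_mod_cast hl
  obtain ⟨a1, a2⟩ := ha
  have a0 : 0 < a := by linarith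
  obtain ⟨r, hr, he⟩ := sCh l a 4 a0.le (by norm_num)
  refine ⟨r, hr, fun k => (sGa1 a _ r a0 he k).trans ?_⟩
  have s1 : √(a / Real.pi) ≤ l := by
    rw [Real.sqrt_le_left (by linarith), div_le_iff₀ Real.pi_pos]
    have := Real.pi_gt_three
    nlinarith
  have e0 := Real.exp_pos (-(37 / 50 * (l : ℝ)))
  have s2 : 3 * ((4 : ℝ) ^ l)⁻¹ * Real.exp (a / 2 * ((4 + 4⁻¹) / 2 - 1)) ≤
      3 * Real.exp (-(37 / 50 * l)) := by
    rw [mul_assoc]
    refine mul_le_mul_of_nonneg_left ?_ (by norm_num)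
    refine (mul_le_mul_of_nonneg_right (four_pow l) (Real.exp_pos _).le).trans ?_
    rw [← Real.exp_add]
    refine Real.exp_le_exp.2 ?_
    norm_num
    linarith
  have s3 : 2 * Real.exp (-a) / a ≤ 3 * Real.exp (-(37 / 50 * l)) := by
    rw [div_le_iff₀ a0]
    have h2 : Real.exp (-a) ≤ Real.exp (-(37 / 50 * l)) := Real.exp_le_exp.2 (by linarith)
    nlinarith
  have s4 : Real.exp (-(18 / 25 * (l : ℝ))) =
      Real.exp (1 / 50 * l) * Real.exp (-(37 / 50 * l)) := by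
    rw [← Real.exp_add]
    congr 1
    ring
  calc _ ≤ (l : ℝ) * (9 * Real.exp (-(37 / 50 * l))) :=
        mul_le_mul s1 (by linarith) (by positivity) (by positivity)
    _ ≤ _ := by
        rw [s4]
        nlinarith

end Pool.Agent.MP_66cee2_co.H54
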