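import Pool.Agent.MP_66cee2_co.X.Defs

/-
The row space of a positive semidefinite matrix with the trace condition contains a lift.
-/

namespace Pool.Agent.MP_66cee2_co.H54

open Set Matrix Pool.Agent.MP_66cee2_co.X

variable {n : ℕ}

/-- a vector with last coordinate one and Lorentz square one is a lift. -/
theorem eq_lift {g : Ix n → ℝ} (h1 : g sI = 1) (h2 : lz g g = 1) :
    g = lift (WithLp.toLp 2 fun i => g (Sum.inl i) : E n) := by
  funext a
  rcases a with i | b
  · rfl
  · cases b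
    · rw [lz_eq] at h2
      have h3 : g (Sum.inr true) = 1 := h1
      rw [h3] at h2
      simp only [lift, EuclideanSpace.real_norm_sq_eq]
      have h4 : ∑ i, g (Sum.inl i) ^ 2 = ∑ i, g (Sum.inl i) * g (Sum.inl i) :=
        Finset.sum_congr rfl fun i _ => pow_two _
      rw [h4]
      linarith
    · exact h1

theorem lift_sI (v : E n) : lift v sI = 1 := rfl

theorem lz_lift_self (v : E n) : lz (lift v) (lift v) = 1 := by
  rw [lz_lift, sub_self, norm_zero]
  norm_num

theorem diag_nonneg {P : Matrix (Ix n) (Ix n) ℝ} (h1 : P.PosSemidef) (h2 : 0 < P sI sI)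
    (a : Ix n) : 0 ≤ P a a - P sI a * P sI a / P sI sI := by
  classical
  have hs : P a sI = P sI a := by
    have := h1.isHermitian.apply sI a
    simpa using this
  have h := h1.dotProduct_mulVec_nonneg
    (Pi.single a 1 - (P sI a / P sI sI) • Pi.single sI 1 : Ix n → ℝ)
  simp only [star_trivial, mulVec_sub, mulVec_smul, sub_dotProduct, dotProduct_sub,
    smul_dotProduct, dotProduct_smul, mulVec_single_one, single_one_dotProduct, smul_eq_mul,
    col_apply] at h
  rw [hs] at h
  have e : P a a - P sI a * P sI a / P sI sI = P a a - P sI a / P sI sI * P sI a -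
      P sI a / P sI sI * (P sI a - P sI a / P sI sI * P sI sI) := by
    field_simp
    ring
  rw [e]
  linarith

theorem exists_root {A B C : ℝ} (hA : 0 < A) (hC : C ≤ 0) :
    ∃ t : ℝ, A * t ^ 2 + 2 * B * t + C = 0 := by
  have hD : 0 ≤ B ^ 2 - A * C := by nlinarith [sq_nonneg B]
  refine ⟨(-B + Real.sqrt (B ^ 2 - A * C)) / A, ?_⟩
  have h := Real.sq_sqrt hD
  field_simp
  nlinarith

theorem lz_add_smul (a b : Ix n → ℝ) (t : ℝ) :
    lz (a + t • b) (a + t • b) = lz b b * t ^ 2 + 2 * lz a b * t + lz a a := by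
  simp only [lz_eq, Pi.add_apply, Pi.smul_apply, smul_eq_mul]
  have e : ∑ i, (a (Sum.inl i) + t * b (Sum.inl i)) * (a (Sum.inl i) + t * b (Sum.inl i)) =
      (∑ i, b (Sum.inl i) * b (Sum.inl i)) * t ^ 2 +
        2 * (∑ i, a (Sum.inl i) * b (Sum.inl i)) * t + ∑ i, a (Sum.inl i) * a (Sum.inl i) := by
    rw [Finset.mul_sum, Finset.sum_mul, Finset.sum_mul, ← Finset.sum_add_distrib,
      ← Finset.sum_add_distrib]
    exact Finset.sum_congr rfl fun i _ => by ring
  rw [e]
  ring

/-- the row space contains a vector with last coordinate one and Lorentz square one. -/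
theorem exists_G {P : Matrix (Ix n) (Ix n) ℝ} (h1 : P.PosSemidef) (h2 : 0 < P sI sI)
    (h3 : trJ P = P sI sI) :
    ∃ g ∈ Submodule.span ℝ (range fun a : Ix n => (P a : Ix n → ℝ)), g sI = 1 ∧ lz g g = 1 := by
  have hm : ∀ a : Ix n, (P a : Ix n → ℝ) ∈
      Submodule.span ℝ (range fun a : Ix n => (P a : Ix n → ℝ)) := fun a =>
    Submodule.subset_span (mem_range_self a)
  have hs : ∀ a, P a sI = P sI a := fun a => by
    have := h1.isHermitian.apply sI a
    simpa using this
  set a₀ : Ix n → ℝ := (P sI sI)⁻¹ • P sI with ha₀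
  have a1 : a₀ sI = 1 := by
    simp only [ha₀, Pi.smul_apply, smul_eq_mul]
    exact inv_mul_cancel₀ h2.ne'
  have t1 : 2 * ∑ i, P (Sum.inl i) (Sum.inl i) + 2 * P sI (Sum.inr false) = P sI sI := by
    rw [← h3]
    simp only [trJ, Fintype.sum_sum_type, Jv, Fintype.sum_bool, Bool.not_true, Bool.not_false,
      Finset.mul_sum]
    have := hs (Sum.inr false)
    linarith
  have a2 : P sI sI * (1 - lz a₀ a₀) = 2 * ∑ i, (P (Sum.inl i) (Sum.inl i) -
      P sI (Sum.inl i) * P sI (Sum.inl i) / P sI sI) := by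
    rw [Finset.sum_sub_distrib, ← Finset.sum_div, lz_eq]
    simp only [ha₀, Pi.smul_apply, smul_eq_mul]
    have e : ∑ i, (P sI sI)⁻¹ * P sI (Sum.inl i) * ((P sI sI)⁻¹ * P sI (Sum.inl i)) =
        (P sI sI)⁻¹ ^ 2 * ∑ i, P sI (Sum.inl i) * P sI (Sum.inl i) := by
      rw [Finset.mul_sum]
      exact Finset.sum_congr rfl fun i _ => by ring
    rw [e]
    have t2 : ∑ i, P (Sum.inl i) (Sum.inl i) = P sI sI / 2 - P sI (Sum.inr false) := by linarith
    rw [t2]
    have hne : P (Sum.inr true) (Sum.inr true) ≠ 0 := h2.ne'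
    field_simp
    ring
  have hnn : ∀ i : Fin n, 0 ≤ P (Sum.inl i) (Sum.inl i) -
      P sI (Sum.inl i) * P sI (Sum.inl i) / P sI sI := fun i => diag_nonneg h1 h2 _
  by_cases hz : ∀ i : Fin n, P (Sum.inl i) (Sum.inl i) -
      P sI (Sum.inl i) * P sI (Sum.inl i) / P sI sI = 0
  · refine ⟨a₀, Submodule.smul_mem _ _ (hm sI), a1, ?_⟩
    rw [Finset.sum_eq_zero fun i _ => hz i, mul_zero] at a2
    have := (mul_eq_zero.1 a2).resolve_left h2.ne'
    linarith
  · push Not at hz
    obtain ⟨i, hi⟩ := hz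
    have hi' := lt_of_le_of_ne (hnn i) hi.symm
    set δ : Ix n → ℝ := P (Sum.inl i) - (P sI (Sum.inl i) / P sI sI) • P sI with hδ
    have d1 : δ sI = 0 := by
      simp only [hδ, Pi.sub_apply, Pi.smul_apply, smul_eq_mul]
      rw [hs, div_mul_cancel₀ _ h2.ne', sub_self]
    have d2 : 0 < δ (Sum.inl i) := by
      simp only [hδ, Pi.sub_apply, Pi.smul_apply, smul_eq_mul]
      rw [div_mul_eq_mul_div]
      exact hi'
    have d3 : 0 < lz δ δ := by
      rw [lz_eq]
      have d4 : δ (Sum.inr true) = 0 := d1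
      rw [d4]
      have d5 : δ (Sum.inl i) * δ (Sum.inl i) ≤ ∑ j, δ (Sum.inl j) * δ (Sum.inl j) :=
        Finset.single_le_sum (f := fun j => δ (Sum.inl j) * δ (Sum.inl j))
          (fun j _ => mul_self_nonneg _) (Finset.mem_univ i)
      nlinarith [mul_pos d2 d2]
    have a3 : lz a₀ a₀ - 1 ≤ 0 := by
      have h4 : 0 ≤ P sI sI * (1 - lz a₀ a₀) := by
        rw [a2]
        exact mul_nonneg zero_le_two (Finset.sum_nonneg fun i _ => hnn i)
      have := nonneg_of_mul_nonneg_right h4 h2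
      linarith
    obtain ⟨t, ht⟩ := exists_root (B := lz a₀ δ) d3 a3
    refine ⟨a₀ + t • δ, Submodule.add_mem _ (Submodule.smul_mem _ _ (hm sI))
      (Submodule.smul_mem _ _ (Submodule.sub_mem _ (hm _) (Submodule.smul_mem _ _ (hm sI)))),
      ?_, ?_⟩
    · rw [Pi.add_apply, Pi.smul_apply, a1, d1, smul_zero, add_zero]
    · rw [lz_add_smul]
      linarith

/-- the row space contains a lift. -/
theorem exists_lift {P : Matrix (Ix n) (Ix n) ℝ} (h1 : P.PosSemidef) (h2 : 0 < P sI sI)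
    (h3 : trJ P = P sI sI) :
    ∃ v : E n, lift v ∈ Submodule.span ℝ (range fun a : Ix n => (P a : Ix n → ℝ)) := by
  obtain ⟨g, hg, g1, g2⟩ := exists_G h1 h2 h3
  exact ⟨_, eq_lift g1 g2 ▸ hg⟩

end Pool.Agent.MP_66cee2_co.H54
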